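import Pool.Agent.TH381.RM4.Defs
import Pool.Agent.TH381.RM.Asm
import Pool.Agent.TH751.RM.Gen

/-!
FIN for the exponent `1 / m` (job RM4-FIN): an edit of `Pool/Agent/TH304/RM2/Fin.lean`.
-/

set_option autoImplicit false

namespace Pool.Agent.TH284.RM4

open Pool.Agent.H584R2.Dg Pool.Agent.W614.Dg Pool.Agent.H539R2 Pool.Agent.TH381.RM
  Pool.Agent.TH381.RM2 Pool.Agent.TH381.RM4

/-- block size -/
def BB (m d n : ℕ) : ℕ := d * rt m n

/-- size of the numbers -/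
def XX (m c d n : ℕ) : ℕ := (48 * BB m d n + 24) ^ (c * BB m d n)

theorem BB_pos {m d : ℕ} (hd : 1 ≤ d) (n : ℕ) : 1 ≤ BB m d n := Nat.mul_pos hd (rt_pos m n)

theorem BB_succ {m : ℕ} (hm : 1 ≤ m) (d n : ℕ) : BB m d (n + 1) ≤ 2 * BB m d n := by
  unfold BB
  have h1 := rt_succ hm n
  have h2 := rt_pos m n
  calc d * rt m (n + 1) ≤ d * (2 * rt m n) := Nat.mul_le_mul_left _ (by omega)
    _ = 2 * (d * rt m n) := by ring

theorem XX_succ {m : ℕ} (hm : 1 ≤ m) (c d n : ℕ) : XX m c d (n + 1) ≤ XX m c d n ^ 4 := by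
  unfold XX
  obtain ⟨B, hB⟩ : ∃ B, B = BB m d n := ⟨_, rfl⟩
  obtain ⟨B', hB'⟩ : ∃ B', B' = BB m d (n + 1) := ⟨_, rfl⟩
  have h1 : B' ≤ 2 * B := by rw [hB, hB']; exact BB_succ hm d n
  rw [← hB, ← hB']
  have h2 : 48 * B' + 24 ≤ (48 * B + 24) ^ 2 := by nlinarith
  calc (48 * B' + 24) ^ (c * B') ≤ ((48 * B + 24) ^ 2) ^ (c * B') := Nat.pow_le_pow_left h2 _
    _ ≤ ((48 * B + 24) ^ 2) ^ (c * (2 * B)) :=
        Nat.pow_le_pow_right (by positivity) (Nat.mul_le_mul_left _ h1)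
    _ = ((48 * B + 24) ^ (c * B)) ^ 4 := by
        rw [← pow_mul, ← pow_mul]
        congr 1
        ring

/-- one step -/
def FF (m c d : ℕ) (z : ℕ) : ℕ := Nat.pair ((Nat.unpair z).1 + 1)
  (powT ((Nat.unpair z).2 ^ 4) (48 * (d * rt m ((Nat.unpair z).1 + 1)) + 24)
    (c * (d * rt m ((Nat.unpair z).1 + 1))))

/-- the letter -/
def LL (M : ℕ) (Lt : ℕ → ℕ → ℕ) (z : ℕ) : ℕ := min (Lt (Nat.unpair z).1 (Nat.unpair z).2) M

theorem FF_pair {m : ℕ} (hm : 1 ≤ m) (c d n : ℕ) :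
    FF m c d (Nat.pair n (XX m c d n)) = Nat.pair (n + 1) (XX m c d (n + 1)) := by
  unfold FF
  rw [Nat.unpair_pair]
  congr 1
  exact powT_eq _ _ _ (by omega) (XX_succ hm c d n)

theorem FF_iter {m : ℕ} (hm : 1 ≤ m) (c d n : ℕ) :
    (FF m c d)^[n] (Nat.pair 0 (XX m c d 0)) = Nat.pair n (XX m c d n) := by
  induction n with
  | zero => rfl
  | succ n ih => rw [Function.iterate_succ_apply', ih, FF_pair hm]

theorem LS_FF (m c d : ℕ) : LS (fun ρ => FF m c d (ρ 0)) := by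
  have h1 := LS.unpair1 (LS.var 0)
  have h2 := LS.unpair2 (LS.var 0)
  have h3 := (LS.const d).mul (LS_rt m h1.succ)
  exact LS.pair h1.succ (LS.powT (ZZ.LS.powc h2 4) (((LS.const 48).mul h3).add (LS.const 24))
    ((LS.const c).mul h3))

theorem LS_LL (M : ℕ) {Lt : ℕ → ℕ → ℕ} (h : LS (fun ρ => Lt (ρ 0) (ρ 1))) :
    LS (fun ρ => LL M Lt (ρ 0)) := by
  have h1 := LS.unpair1 (LS.var 0)
  have h2 := LS.unpair2 (LS.var 0)
  have h3 : LS (fun ρ => Lt (Nat.unpair (ρ 0)).1 (Nat.unpair (ρ 0)).2) :=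
    LS.lett (f := fun ρ' => Lt (Nat.unpair ((tl ρ') 0)).1 (ρ' 0)) h2
      (LS.lett (f := fun ρ' => Lt (ρ' 0) (ρ' 1)) h1.wk h)
  exact LS.min h3 (LS.const M)

theorem BB_le_XX {m c d : ℕ} (hc : 1 ≤ c) (hd : 1 ≤ d) (t : ℕ) :
    48 * BB m d t + 24 ≤ XX m c d t := by
  unfold XX
  have h1 : 1 ≤ c * BB m d t := Nat.mul_pos hc (BB_pos hd t)
  calc 48 * BB m d t + 24 = (48 * BB m d t + 24) ^ 1 := by rw [pow_one]
    _ ≤ _ := Nat.pow_le_pow_right (by omega) h1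

theorem XX_ge {m c d : ℕ} (hc : 1 ≤ c) (hd : 1 ≤ d) (t : ℕ) : 24 ≤ XX m c d t := by
  have := BB_le_XX (m := m) hc hd t
  omega

theorem lt_XX {m c d : ℕ} (hm : 1 ≤ m) (hc : 1 ≤ c) (hd : 1 ≤ d) (t : ℕ) :
    t ≤ XX m c d t ^ m := by
  have h1 : rt m t ≤ BB m d t := Nat.le_mul_of_pos_left _ hd
  have h2 := BB_le_XX (m := m) hc hd t
  exact (lt_rt hm t).le.trans (Nat.pow_le_pow_left (by omega) m)

theorem pair_le {t X Y : ℕ} (h : t ≤ Y) (h' : X ≤ Y) (hY : 24 ≤ Y) :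
    Nat.pair t X + 2 ≤ Y ^ 3 := by
  have h1 := Nat.pair_lt_max_add_one_sq t X
  have h0 : (max t X + 1) ^ 2 ≤ (Y + 1) ^ 2 :=
    Nat.pow_le_pow_left (Nat.succ_le_succ (max_le h h')) 2
  have h2 : (Y + 1) ^ 2 + 1 ≤ Y ^ 3 := by
    have h3 : (Y + 1) ^ 2 + 1 ≤ 24 * Y ^ 2 := by nlinarith
    calc (Y + 1) ^ 2 + 1 ≤ 24 * Y ^ 2 := h3
      _ ≤ Y * Y ^ 2 := Nat.mul_le_mul_right _ hY
      _ = Y ^ 3 := by ring
  omega

theorem root_facts {m n : ℕ} (hm : 1 ≤ m) (hn : 1 ≤ n) :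
    ∃ r : ℝ, r = (n : ℝ) ^ (1 / (m : ℝ)) ∧ 1 ≤ r ∧ r ^ m = n ∧ r ≤ n := by
  have hn' : (1 : ℝ) ≤ n := by exact_mod_cast hn
  have hm' : (1 : ℝ) ≤ m := by exact_mod_cast hm
  have hm0 : (m : ℝ) ≠ 0 := by positivity
  refine ⟨_, rfl, Real.one_le_rpow hn' (by positivity), ?_, ?_⟩
  · rw [← Real.rpow_natCast, ← Real.rpow_mul (by linarith), one_div_mul_cancel hm0,
      Real.rpow_one]
  · calc (n : ℝ) ^ (1 / (m : ℝ)) ≤ (n : ℝ) ^ (1 : ℝ) :=
        Real.rpow_le_rpow_of_exponent_le hn' (by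
          rw [div_le_one (by linarith)]
          exact hm')
      _ = n := Real.rpow_one _

theorem BB_le {m d n t : ℕ} (hm : 1 ≤ m) {r : ℝ} (hr : 1 ≤ r) (hrn : r ^ m = n) (ht : t ≤ n) :
    (BB m d t : ℝ) ≤ 2 * d * r := by
  have h1 : ((rt m t - 1 : ℕ) : ℝ) ^ m ≤ r ^ m := by
    rw [hrn]
    have := (rt_le hm t).trans ht
    exact_mod_cast this
  have h2 : ((rt m t - 1 : ℕ) : ℝ) ≤ r :=
    le_of_pow_le_pow_left₀ (by omega) (by linarith) h1
  have h3 : (rt m t : ℝ) ≤ 2 * r := by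
    have h4 := rt_pos m t
    rw [Nat.cast_sub h4] at h2
    push_cast at h2
    linarith
  unfold BB
  push_cast
  have h5 : (0 : ℝ) ≤ d := Nat.cast_nonneg d
  nlinarith

theorem log_le {m d n t : ℕ} (hm : 1 ≤ m) (hd : 1 ≤ d) (hn : 1 ≤ n) {r : ℝ} (hr : 1 ≤ r)
    (hrn : r ^ m = n) (hrle : r ≤ n) (ht : t ≤ n) :
    Real.log (48 * (BB m d t : ℝ) + 24) ≤ (Real.log (120 * d) + 1) * (Real.log n + 1) := by
  have h1 := BB_le (d := d) hm hr hrn ht
  have hd' : (1 : ℝ) ≤ d := by exact_mod_cast hd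
  have hn' : (1 : ℝ) ≤ n := by exact_mod_cast hn
  have hB : (0 : ℝ) ≤ BB m d t := Nat.cast_nonneg _
  have h2 : 48 * (BB m d t : ℝ) + 24 ≤ 120 * d * n := by
    have h3 : (d : ℝ) * r ≤ d * n := mul_le_mul_of_nonneg_left hrle (by linarith)
    have h4 : (1 : ℝ) ≤ d * n := by nlinarith
    calc 48 * (BB m d t : ℝ) + 24 ≤ 96 * (d * r) + 24 := by linarith
      _ ≤ 96 * (d * n) + 24 * (d * n) := by linarith
      _ = 120 * d * n := by ring
  have h3 : Real.log (48 * (BB m d t : ℝ) + 24) ≤ Real.log (120 * d) + Real.log n := by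
    rw [← Real.log_mul (by positivity) (by positivity)]
    exact Real.log_le_log (by positivity) h2
  have h4 : 0 ≤ Real.log (120 * (d : ℝ)) := Real.log_nonneg (by linarith)
  have h5 : 0 ≤ Real.log n := Real.log_nonneg hn'
  have h6 := mul_nonneg h4 h5
  have h7 : (Real.log (120 * d) + 1) * (Real.log n + 1) =
      Real.log (120 * d) * Real.log n + Real.log (120 * d) + Real.log n + 1 := by ring
  rw [h7]
  linarith

theorem space {m c d : ℕ} (hm : 1 ≤ m) (hc : 1 ≤ c) (hd : 1 ≤ d) {n t : ℕ} (hn : 1 ≤ n)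
    (ht : t ≤ n) :
    Real.log ((Nat.pair t (XX m c d t) : ℕ) + 2) ≤
      (6 * m * c * d * (Real.log (120 * d) + 1)) *
        ((n : ℝ) ^ (1 / (m : ℝ)) * (Real.log n + 1)) := by
  obtain ⟨r, hr0, hr1, hr3, hrn⟩ := root_facts hm hn
  rw [← hr0]
  obtain ⟨X, hX⟩ : ∃ X, X = XX m c d t := ⟨_, rfl⟩
  have h1 : Nat.pair t X + 2 ≤ X ^ (m * 3) := by
    have hge := XX_ge (m := m) hc hd t
    have hXY : XX m c d t ≤ XX m c d t ^ m := Nat.le_self_pow (by omega) _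
    rw [hX, pow_mul]
    exact pair_le (lt_XX hm hc hd t) hXY (hge.trans hXY)
  have h2 : Real.log ((Nat.pair t X : ℕ) + 2) ≤ m * 3 * Real.log (X : ℝ) := by
    rw [show ((m : ℝ) * 3) = ((m * 3 : ℕ) : ℝ) by push_cast; ring, ← Real.log_pow]
    apply Real.log_le_log (by positivity)
    exact_mod_cast h1
  have h3 : Real.log (X : ℝ) = c * BB m d t * Real.log (48 * (BB m d t : ℝ) + 24) := by
    rw [hX]
    unfold XX
    push_cast
    rw [Real.log_pow]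
    push_cast
    ring
  have h4 := BB_le (d := d) hm hr1 hr3 ht
  have h5 := log_le hm hd hn hr1 hr3 hrn ht
  have hB : (0 : ℝ) ≤ BB m d t := Nat.cast_nonneg _
  have h6 : 0 ≤ Real.log (48 * (BB m d t : ℝ) + 24) := Real.log_nonneg (by linarith)
  have hc0 : (0 : ℝ) ≤ c := Nat.cast_nonneg c
  have hd0 : (0 : ℝ) ≤ d := Nat.cast_nonneg d
  have hm0 : (0 : ℝ) ≤ m := Nat.cast_nonneg m
  rw [← hX]
  calc Real.log ((Nat.pair t X : ℕ) + 2) ≤ m * 3 * Real.log (X : ℝ) := h2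
    _ = 3 * m * c * (BB m d t * Real.log (48 * (BB m d t : ℝ) + 24)) := by rw [h3]; ring
    _ ≤ 3 * m * c * ((2 * d * r) * ((Real.log (120 * d) + 1) * (Real.log n + 1))) := by
        apply mul_le_mul_of_nonneg_left _ (by positivity)
        exact mul_le_mul h4 h5 h6 (by positivity)
    _ = _ := by ring

theorem fin4 : Pool.Agent.TH381.RM4.SFin := by
  intro m hm S w M c d co e Lt hco hc hd hLt hw
  have hval : ∀ n, e (LL M Lt ((FF m c d)^[n] (Nat.pair 0 (XX m c d 0)))) = some (w n) := by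
    intro n
    rw [FF_iter hm]
    unfold LL
    rw [Nat.unpair_pair]
    rw [hw n (XX m c d n) le_rfl, min_eq_left (hco.lt _).le]
    exact hco.inv _
  have hlist : ∀ t, (List.range t).filterMap
      (fun i => e (LL M Lt ((FF m c d)^[i] (Nat.pair 0 (XX m c d 0))))) =
        (List.range t).map w := by
    intro t
    rw [← List.filterMap_eq_map]
    apply List.filterMap_congr
    intro i _
    exact hval i
  obtain ⟨k, Mc, C', hM, hs⟩ := TH751.RM.gen S (FF m c d) (LL M Lt) M e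
    (Nat.pair 0 (XX m c d 0)) w
    (fun n => (6 * m * c * d * (Real.log (120 * d) + 1)) *
      ((n : ℝ) ^ (1 / (m : ℝ)) * (Real.log n + 1))) (LS_FF m c d) (LS_LL M hLt)
    (fun z => min_le_right _ _)
    (by
      intro t
      rw [hlist]
      exact map_range_isPre w t)
    (by
      intro n
      refine ⟨n, ?_⟩
      rw [hlist]
      simp)
    (by
      intro n hn t ht
      rw [hlist, List.length_map, List.length_range] at ht
      rw [FF_iter hm]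
      exact space hm hc hd hn ht.le)
  refine ⟨k, Mc, C' * (6 * m * c * d * (Real.log (120 * d) + 1)), hM, ?_⟩
  intro n hn
  rw [mul_assoc]
  exact hs n hn

end Pool.Agent.TH284.RM4
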